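import Pool.Agent.W488.IX.Stm

/-! QPX: the homogeneous functional. -/

set_option autoImplicit false

namespace Pool.Agent.W440.IX.Qpx

open MeasureTheory Set Filter Topology
open Pool.Agent.W488.IW Pool.Agent.W488.IX

theorem norm_ek (k : Idx) (x : V) : ‖ek k x‖ = 1 := by
  unfold ek
  have h : (2 * Real.pi * (k.1 * x 0 + k.2 * x 1) * Complex.I : ℂ) =
      ((2 * Real.pi * (k.1 * x 0 + k.2 * x 1) : ℝ) : ℂ) * Complex.I := by
    push_cast
    ring
  rw [h, Complex.norm_exp_ofReal_mul_I]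

theorem tp_le (Λ : Finset Idx) (w c : Idx → ℂ) (x : V) :
    ‖tp Λ w c x‖ ≤ ∑ k ∈ Λ, ‖w k * c k‖ := by
  unfold tp
  refine (norm_sum_le _ _).trans (Finset.sum_le_sum fun k _ => ?_)
  rw [norm_mul, norm_ek, mul_one]

theorem main (h : S_QWX) (hK : S_KAP) (hH : S_HOM) : S_QPX := by
  intro p hp hp2 N c
  obtain ⟨R, hR1, hR⟩ : ∃ R : ℝ, 1 ≤ R ∧ ∀ x : V,
      2 * (‖(gd (box N) c x).1‖ + ‖(gd (box N) c x).2‖) ≤ R := by
    refine ⟨max 1 (2 * ((∑ k ∈ box N, ‖ka k * c k‖) + ∑ k ∈ box N, ‖kb k * c k‖)),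
      le_max_left _ _, fun x => le_trans ?_ (le_max_right _ _)⟩
    have h1 := tp_le (box N) ka c x
    have h2 := tp_le (box N) kb c x
    have h3 : (gd (box N) c x).1 = tp (box N) ka c x := rfl
    have h4 : (gd (box N) c x).2 = tp (box N) kb c x := rfl
    rw [h3, h4]
    linarith
  obtain ⟨α, C, hκ⟩ := hK p R hp hp2 hR1
  have h1 := h α C (kp p R) hκ N c
  have h2 : ∀ x : V, Wq p ‖(gd (box N) c x).1‖ ‖(gd (box N) c x).2‖ =
      (p * (p - 1) * (p - 2)) * fX (kp p R) ‖(gd (box N) c x).1‖ ‖(gd (box N) c x).2‖ := by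
    intro x
    exact (hH p R _ _ hp hp2 hR1 (norm_nonneg _) (norm_nonneg _) (hR x)).symm
  show 0 ≤ ∫ x in Icc (0 : V) 1, Wq p ‖(gd (box N) c x).1‖ ‖(gd (box N) c x).2‖
  simp only [h2]
  rw [integral_const_mul]
  have h3 : 0 ≤ p * (p - 1) * (p - 2) :=
    mul_nonneg (mul_nonneg (by linarith) (by linarith)) (by linarith)
  exact mul_nonneg h3 h1

end Pool.Agent.W440.IX.Qpx
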