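import Pool.Agent.W488.IX.Stm

/-! QTX: positivity for the regularised functional. -/

set_option autoImplicit false

namespace Pool.Agent.W440.IX.Qtx

open MeasureTheory Set Filter Topology
open Pool.Agent.W488.IW Pool.Agent.W488.IX

theorem main (h1 : S_PCX) (h2 : S_REGW) (h3 : S_REGE) (h4 : S_MOL) (h5 : S_AE) (h6 : S_COEF) :
    S_QTX := by
  intro α C κ hK ϑ hϑ ε0 hε0
  obtain ⟨δ, hδ, ε1, hε1, hc⟩ := h1 α C κ hK ϑ hϑ
  obtain ⟨ε, hε, hεa, hεb⟩ : ∃ ε : ℝ, 0 < ε ∧ ε < ε0 ∧ ε < ε1 := by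
    refine ⟨min ε0 ε1 / 2, ?_, ?_, ?_⟩
    · have := lt_min hε0 hε1
      linarith
    · have h := min_le_left ε0 ε1
      have := lt_min hε0 hε1
      linarith
    · have h := min_le_right ε0 ε1
      have := lt_min hε0 hε1
      linarith
  obtain ⟨r1, r2, r3, r4⟩ := h2 α C κ hK ε ϑ hε hϑ
  obtain ⟨e1, e2⟩ := h3 α C κ hK ε ϑ hε hϑ
  refine ⟨ε, hε, hεa, h4 (mX ε) (2 + 4 * δ) (h6 ε hε) (by linarith) (wX κ ε ϑ) (eX κ ε ϑ)
    (gX κ ε ϑ) r1 r2 e1 e2 r3 r4 ?_⟩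
  filter_upwards [h5] with F hF
  exact hc ε hε hεb F hF

end Pool.Agent.W440.IX.Qtx
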